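import Pool.Agent.Lib.MP_b520b2_co.Cert.S244.Top
import Pool.Agent.Lib.MP_b520b2_co.Compact

/-!
# The least sufficient area
-/

namespace Pool.Agent.Results.MP_b520b2_co.ExactValue

open Pool.Agent.MOS

/-- The least sufficient area in the problem of Moser is `(2 + √3) / 3`. -/
theorem result : IsLeast {A : ℝ | 0 < A ∧ Sufficient A} ((2 + Real.sqrt 3) / 3) :=
  isLeast_of_upperBound (V6.upperBound_of_root V6.S244.g_top)

end Pool.Agent.Results.MP_b520b2_co.ExactValue
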